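import Pool.Agent.R876.WM.MP
import Pool.Agent.R876.WM.OPL
import Pool.Agent.R876.WM.OPS
import Pool.Agent.R876.WM.OPC
import Pool.Agent.R876.WM.OP
import Pool.Agent.R876.WM.BOP
import Pool.Agent.R876.WM.BRI
import Pool.Agent.R876.WM.OUL
import Pool.Agent.R876.WM.POT
import Pool.Agent.R876.WM.CE
import Pool.Agent.R876.WM.DIFL
import Pool.Agent.R876.WM.AVG
import Pool.Agent.R876.WM.ABS
import Pool.Agent.R876.WM.SMD
import Pool.Agent.R876.WM.L3
import Pool.Agent.R876.WM.LYA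
import Pool.Agent.R876.WM.IPR
import Pool.Agent.R876.WM.TAY
import Pool.Agent.R876.WM.FD
import Pool.Agent.R876.WM.D2S
import Pool.Agent.R876.WM.L1
import Pool.Agent.R876.WM.LEIB
import Pool.Agent.R876.WM.PROD
import Pool.Agent.R876.WM.SLC
import Pool.Agent.R876.WM.CONJ
import Pool.Agent.R876.WM.COMP
import Pool.Agent.R876.WM.H1
import Pool.Agent.R876.WM.CUR
import Pool.Agent.R876.WM.FLIP
import Pool.Agent.R876.WM.AMP
import Pool.Agent.R876.WM.TEN
import Pool.Agent.R876.WM.TENA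
import Pool.Agent.R876.WM.L4
import Pool.Agent.R876.WM.FINA
import Pool.Agent.R876.WM.ASM

/-!
MP_e701d5_pr, Q1: YES.  A pointwise operator on vector fields over the Wiener space which maps
`D^2_∞` continuously into itself is a multiplicator.  Proved over every centred Gaussian measure
on a separable Banach space (the classical Wiener space is one).

The Ornstein-Uhlenbeck semigroup is given by Mehler's formula `ou`, the potentials
`(1 - L)^(-r/2)` by the Gamma integral `pot`, and `IsD μ p r V U` says that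
`V ∈ D^p_r` and `(1 - L)^(r/2) V = U` (so that `‖V‖_{p,r} = ‖U‖_p`).
-/

open MeasureTheory ProbabilityTheory Set
open scoped ENNReal NNReal Topology

namespace Pool.Agent.Results.MP_e701d5_pr.WienerMultiplicators

open Pool.Agent.R876.WM

universe u v

theorem result
    {Ω : Type u} [NormedAddCommGroup Ω] [NormedSpace ℝ Ω] [CompleteSpace Ω]
    [SecondCountableTopology Ω] [MeasurableSpace Ω] [BorelSpace Ω]
    (μ : Measure Ω) [IsGaussian μ] (hμ : ∀ L : StrongDual ℝ Ω, ∫ x, L x ∂μ = 0)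
    {H : Type v} [NormedAddCommGroup H] [InnerProductSpace ℝ H] [CompleteSpace H]
    [SecondCountableTopology H]
    (A : Ω → (H →L[ℝ] H)) (_hA : ∀ h : H, StronglyMeasurable fun ω => A ω h)
    (hcont : ∀ r : ℕ, ∃ (s : ℕ) (C : ℝ≥0), ∀ V : Ω → H, (∀ k : ℕ, ∃ U, IsD μ 2 k V U) →
      ∀ U : Ω → H, IsD μ 2 s V U →
      ∃ U' : Ω → H, IsD μ 2 r (fun ω => A ω (V ω)) U' ∧ eLpNorm U' 2 μ ≤ C * eLpNorm U 2 μ) :
    ∀ p : ℝ, 1 < p → ∀ r : ℕ, ∃ q : ℝ, 1 < q ∧ ∃ (s : ℕ) (C : ℝ≥0), ∀ V : Ω → H,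
      (∀ p' : ℝ, 1 < p' → ∀ k : ℕ, ∃ U, IsD μ (ENNReal.ofReal p') k V U) →
      ∀ U : Ω → H, IsD μ (ENNReal.ofReal q) s V U →
      ∃ U' : Ω → H, IsD μ (ENNReal.ofReal p) r (fun ω => A ω (V ω)) U' ∧
        eLpNorm U' (ENNReal.ofReal p) μ ≤ C * eLpNorm U (ENNReal.ofReal q) μ := by
  have hMP : S_MP μ := mp_thm μ hμ
  have hOPL : ∀ (E : Type v) [NormedAddCommGroup E] [InnerProductSpace ℝ E] [CompleteSpace E],
      S_OPL E μ := fun E => opl_thm μ E hMP
  have hOP : ∀ (E : Type v) [NormedAddCommGroup E] [InnerProductSpace ℝ E] [CompleteSpace E],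
      S_OP E μ := fun E => op_thm μ E (hOPL E) (ops_thm μ E hMP) (opc_thm μ E hMP)
  have hBRI : ∀ (E : Type v) [NormedAddCommGroup E] [InnerProductSpace ℝ E] [CompleteSpace E],
      S_BRI E μ := fun E => bri_thm μ E hMP (hOPL E)
  have hOUL : ∀ (E : Type v) [NormedAddCommGroup E] [InnerProductSpace ℝ E] [CompleteSpace E],
      S_OUL E μ := fun E => oul_thm μ E (hOP E) bop_thm (hBRI E)
  have hPOT : ∀ (E : Type v) [NormedAddCommGroup E] [InnerProductSpace ℝ E] [CompleteSpace E],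
      S_POT E μ := fun E => pot_thm μ E hMP (hOP E) bop_thm (hBRI E)
  have hSMD : ∀ (E : Type v) [NormedAddCommGroup E] [InnerProductSpace ℝ E] [CompleteSpace E],
      S_SMD E μ := fun E => smd_thm μ E hMP (hOUL E) (ce_thm μ E hMP) avg_thm abs_thm
  have hL3 : ∀ (E : Type v) [NormedAddCommGroup E] [InnerProductSpace ℝ E] [CompleteSpace E],
      S_L3 E μ := fun E => l3_thm μ E (hSMD E)
  have hDIFL : ∀ (E : Type v) [NormedAddCommGroup E] [InnerProductSpace ℝ E] [CompleteSpace E],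
      S_DIFL E μ := fun E => difl_thm μ E hMP
  have hL1 : ∀ (E : Type v) [NormedAddCommGroup E] [InnerProductSpace ℝ E] [CompleteSpace E],
      S_L1 E μ := fun E => l1_thm μ E hMP (hPOT E)
        (d2s_thm μ E hMP (hPOT E) (hOUL E) (ipr_thm μ E hMP) tay_thm fd_thm) (lya_thm E) (hDIFL E)
  have hL4 : ∀ (E : Type v) [NormedAddCommGroup E] [InnerProductSpace ℝ E] [CompleteSpace E],
      S_L4 μ E := fun E => l4_thm μ E (hPOT E)
  have hPROD : ∀ (E F : Type v) [NormedAddCommGroup E] [InnerProductSpace ℝ E] [CompleteSpace E]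
      [NormedAddCommGroup F] [InnerProductSpace ℝ F] [CompleteSpace F], S_PROD E F μ :=
    fun E F => prod_thm μ E F hMP (leib_thm Ω E F) (hDIFL E)
  have hSLC : ∀ (E F : Type v) [NormedAddCommGroup E] [InnerProductSpace ℝ E] [CompleteSpace E]
      [NormedAddCommGroup F] [InnerProductSpace ℝ F] [CompleteSpace F], S_SLC E F μ :=
    fun E F => slc_thm μ E F hMP (hOPL E)
  have hCONJ : S_CONJ.{u, v} μ := conj_thm μ
  have hTENA : S_TENA.{u, v} μ := tena_thm μ
    (fun I => h1_thm μ (L2 I) (hPOT _) hSLC) hCONJ (fun I => comp_thm μ (L2 I)) cur_thm flip_thm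
    amp_thm
  have hIND : S_IND.{u, v} μ := ind_thm μ hTENA ten_thm hPROD hL1 hL3 hL4
  exact asm μ hCONJ (fun E => fina_thm μ E hPOT)
    (fun I _ A hA S hS hS2 p hp => ud_all μ hIND hL1 hL3 hL4 I A hA S hS hS2 p hp) H A hcont

end Pool.Agent.Results.MP_e701d5_pr.WienerMultiplicators
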